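import Pool.Agent.H30.EE.TargetsP

/-!
Module LPB of the project EE (Theorem E) on `MP_70ba79_ag`: Lemma P, numbers.
-/

set_option autoImplicit false

namespace Pool.Agent.H79.EE

open MvPolynomial SC Pool.Agent.H27.LV Pool.Agent.H17.VG Pool.Agent.H30.EE Module

lemma card_degree (r w : ℕ) :
    Nat.card {d : Fin (r + 1) →₀ ℕ // d.degree = w} = (w + r).choose r := by
  have h1 := Finset.card_finsuppAntidiag_nat_eq_choose
    (s := (Finset.univ : Finset (Fin (r + 1)))) w
  rw [Finset.card_univ, Fintype.card_fin] at h1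
  have h2 : r + 1 + w - 1 = w + r := by omega
  rw [h2, Nat.choose_symm_add] at h1
  rw [← h1]
  apply Nat.subtype_card
  intro d
  rw [Finset.mem_finsuppAntidiag, Finsupp.degree_eq_sum]
  simp

/-- The dimension of the space of forms of degree `w` (after H15.EGH.Dim). -/
lemma finrank_homog (K : Type) [Field K] (r w : ℕ) :
    finrank K (homogeneousSubmodule (Fin (r + 1)) K w) = (w + r).choose r := by
  classical
  rw [← card_degree]
  let A : Set (Fin (r + 1) →₀ ℕ) := {d | d.degree = w}
  have hfin : A.Finite := (Finsupp.finite_of_degree_le w).subset fun d hd => le_of_eq hd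
  have : Fintype A := hfin.fintype
  have h1 : homogeneousSubmodule (Fin (r + 1)) K w =
      Submodule.span K (Set.range fun p : A => basisMonomials (Fin (r + 1)) K p) := by
    have h2 : (Set.range fun p : A => basisMonomials (Fin (r + 1)) K p) =
        basisMonomials (Fin (r + 1)) K '' A := by
      ext x; simp
    rw [h2]
    ext v
    rw [Basis.mem_span_image, mem_homogeneousSubmodule]
    constructor
    · intro h p hp
      rw [Finset.mem_coe, Finsupp.mem_support_iff] at hp
      have h3 := h hp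
      change p.degree = w
      rw [← h3, Finsupp.degree_eq_weight_one]
      rfl
    · intro h m hm
      have h4 : m ∈ A := by
        apply h
        rw [Finset.mem_coe, Finsupp.mem_support_iff]
        exact hm
      rw [← (show m.degree = w from h4), Finsupp.degree_eq_weight_one]
      rfl
  rw [h1, finrank_span_eq_card]
  · rw [← Nat.card_eq_fintype_card]
    rfl
  · exact (basisMonomials (Fin (r + 1)) K).linearIndependent.comp _ Subtype.val_injective

lemma finite_homog (K : Type) [Field K] (r w : ℕ) :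
    FiniteDimensional K (homogeneousSubmodule (Fin (r + 1)) K w) := by
  apply FiniteDimensional.of_finrank_pos
  rw [finrank_homog]
  exact Nat.choose_pos (by omega)

lemma finrank_mulW {K : Type} [Field K] {n : ℕ} {p : MvPolynomial (Fin (n + 1)) K} (hp : p ≠ 0)
    (W : Submodule K (MvPolynomial (Fin (n + 1)) K)) :
    finrank K (mulW p W) = finrank K W := by
  unfold mulW
  have hinj : Function.Injective (LinearMap.mulLeft K p) := by
    intro x y hxy
    simpa [hp] using hxy
  exact (LinearEquiv.finrank_eq (Submodule.equivMapOfInjective _ hinj W)).symm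

lemma choose_two (m : ℕ) : (((m + 2).choose 2 : ℕ) : ℚ) = (m + 2) * (m + 1) / 2 := by
  rw [Nat.cast_choose_two]
  push_cast
  ring

theorem pf_LPB (hGAU : T_GAU) (hDSP : T_DSP) (hHNB : T_HNB) : T_LPB := by
  intro k K _ _ _ _ _ _ htr a b B y μ p hy hb1 hba hBa hμ hp hp0 hJ hlt
  obtain ⟨-, hSd, -, hsup, -, hMd⟩ := hDSP k K htr 2 a
  obtain ⟨hM1, hM2⟩ := hMd y hy
  -- the height of `p` is at least zero
  have hF0 : 0 ≤ hF (n := 2) k b p := by
    obtain ⟨-, -, hneg, -, hspan, -⟩ := hDSP k K htr 2 b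
    have h1 := hspan p hp0 hp
    have h2 := hneg (Submodule.span K {p})
    rw [h1] at h2
    linarith
  -- the degree of the space of multiples of `p`
  obtain ⟨-, hSdab, -⟩ := hDSP k K htr 2 (a - b)
  have hG := hGAU k K htr 2 (a - b) b p hp0 hp (Sd K 2 (a - b)) le_rfl
  rw [Nat.sub_add_cancel hba, hSdab, finrank_homog, zero_sub] at hG
  -- property (2b)
  have hMle : Md (n := 2) a y ≤ Sd K 2 a := inf_le_left
  have hfinS : FiniteDimensional K (Sd K 2 a) := finite_homog K 2 a
  have hfin : FiniteDimensional K (Md (n := 2) a y) :=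
    Submodule.finiteDimensional_of_le hMle
  have h1 := (hHNB K (MvPolynomial (Fin 3) K) (Md (n := 2) a y) (dS k 2 a) μ
    (mulW (n := 2) p (Sd K 2 (a - b)))
    (fun U hU U' hU' => hsup U (hU.trans hMle) U' (hU'.trans hMle)) hJ).1
  rw [finrank_mulW hp0, finrank_homog, hG, hM1] at h1
  have hdM : (finrank K (Md (n := 2) a y) : ℚ) = (a + 2) * (a + 1) / 2 - 1 := by
    have h2 : (finrank K (Md (n := 2) a y) : ℚ) + 1 = (((a + 2).choose 2 : ℕ) : ℚ) := by
      rw [← finrank_homog K 2 a]
      exact_mod_cast hM2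
    rw [choose_two] at h2
    linarith
  rw [hdM, choose_two] at h1
  have hab : (((a - b : ℕ)) : ℚ) = a - b := by push_cast [hba]; ring
  rw [hab] at h1
  push_cast at h1
  rw [choose_two, hab] at h1
  have hbq : (b : ℚ) ≤ a := by exact_mod_cast hba
  have hb1q : (1 : ℚ) ≤ b := by exact_mod_cast hb1
  have hBaq : 2 * (B : ℚ) + 2 ≤ a := by exact_mod_cast hBa
  have hB0 : (0 : ℚ) ≤ B := Nat.cast_nonneg B
  have hF0q : (0 : ℚ) ≤ (hF (n := 2) k b p : ℚ) := by exact_mod_cast hF0
  set F : ℚ := (hF (n := 2) k b p : ℚ) with hFdef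
  set H : ℚ := (hgt k y : ℚ) with hHdef
  set x : ℚ := (a : ℚ) with hx
  set u : ℚ := (b : ℚ) with hu
  set w : ℚ := (B : ℚ) with hw
  have hC : 0 ≤ (x - u + 2) * (x - u + 1) / 2 := by
    have h3 : 0 ≤ x - u := by linarith
    positivity
  -- the main inequality
  have h4 : (x - u + 2) * (x - u + 1) / 2 * F + μ * (x * u - u * (u - 3) / 2 - 1) ≤ x * H := by
    have h5 : x * u - u * (u - 3) / 2 - 1 =
        (x + 2) * (x + 1) / 2 - 1 - (x - u + 2) * (x - u + 1) / 2 := by ring
    rw [h5]
    linarith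
  have hCF := mul_nonneg hC hF0q
  have hbB : b ≤ B := by
    by_contra hcon
    push Not at hcon
    have h6 : w + 1 ≤ u := by
      rw [hw, hu]
      exact_mod_cast hcon
    have h7 : x * (w + 1) - (w + 1) * (w - 2) / 2 - 1 ≤ x * u - u * (u - 3) / 2 - 1 := by
      nlinarith [mul_nonneg (sub_nonneg.2 h6) (sub_nonneg.2 hbq)]
    have h8 := mul_le_mul_of_nonneg_left h7 hμ.le
    linarith
  refine ⟨hbB, ?_⟩
  have hbBq : u ≤ w := by
    rw [hw, hu]
    exact_mod_cast hbB
  have hphi : 0 ≤ x * u - u * (u - 3) / 2 - 1 := by nlinarith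
  have h9 := mul_nonneg hμ.le hphi
  have h10 : (x - u + 2) * (x - u + 1) / 2 * F ≤ x * H := by linarith
  have h11 : x ^ 2 / 8 ≤ (x - u + 2) * (x - u + 1) / 2 := by nlinarith
  have h12 : x ^ 2 / 8 * F ≤ x * H := (mul_le_mul_of_nonneg_right h11 hF0q).trans h10
  have hx0 : 0 < x := by linarith
  have h13 : x * (x * F) ≤ x * (8 * H) := by nlinarith
  have h14 : x * F ≤ 8 * H := le_of_mul_le_mul_left h13 hx0
  have h15 : ((a * hF (n := 2) k b p : ℤ) : ℚ) ≤ ((8 * hgt k y : ℤ) : ℚ) := by
    push_cast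
    exact h14
  exact_mod_cast h15

end Pool.Agent.H79.EE
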