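import Pool.Agent.H30.EE.TargetsP
import Pool.Agent.H27.LV.Basic
import Pool.Agent.H79.EE.LPB

/-!
Module PEN of the project EE (Theorem E) on `MP_70ba79_ag`: lines of a pencil.
-/

set_option autoImplicit false

namespace Pool.Agent.H79.EE

open MvPolynomial SC Pool.Agent.H27.LV Pool.Agent.H17.VG Pool.Agent.H30.EE Module

/-- A pencil of linear maps `E0 + t E1` with `E1` onto is onto for almost all `t`. -/
theorem pencil {k K V W : Type} [Field k] [Field K] [Algebra k K] [AddCommGroup V] [Module K V]
    [AddCommGroup W] [Module K W] [FiniteDimensional K W] (E0 E1 : V →ₗ[K] W)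
    (h1 : LinearMap.range E1 = ⊤) :
    {t : k | LinearMap.range (E0 + algebraMap k K t • E1) ≠ ⊤}.Finite := by
  obtain ⟨S, hS⟩ := E1.exists_rightInverse_of_surjective h1
  set T : End K W := E0.comp S with hT
  have hfin : (spectrum K T).Finite := Module.End.finite_spectrum T
  have hinj : Function.Injective fun t : k => -algebraMap k K t := by
    intro x y hxy
    exact (algebraMap k K).injective (neg_injective hxy)
  refine (hfin.preimage hinj.injOn).subset fun t ht => ?_
  rw [Set.mem_preimage]
  by_contra hcon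
  rw [spectrum.notMem_iff] at hcon
  refine ht ?_
  rw [LinearMap.range_eq_top]
  have h2 : Function.Bijective (algebraMap K (End K W) (-algebraMap k K t) - T) :=
    (Module.End.isUnit_iff _).1 hcon
  intro w
  obtain ⟨u, hu⟩ := h2.2 w
  refine ⟨S (-u), ?_⟩
  have h3 : E1 (S (-u)) = -u := LinearMap.congr_fun hS (-u)
  have h4 : w = (-algebraMap k K t) • u - E0 (S u) := by
    rw [← hu, LinearMap.sub_apply, Module.algebraMap_end_apply]
    rfl
  rw [LinearMap.add_apply, LinearMap.smul_apply, h3, h4, map_neg, map_neg, smul_neg, neg_smul]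
  abel

/-- The same in a finite-dimensional subspace. -/
theorem pencil' {k K V P : Type} [Field k] [Field K] [Algebra k K] [AddCommGroup V] [Module K V]
    [AddCommGroup P] [Module K P] (U : Submodule K P) [FiniteDimensional K U] (E0 E1 : V →ₗ[K] P)
    (h0 : LinearMap.range E0 ≤ U) (h1 : LinearMap.range E1 = U) :
    {t : k | LinearMap.range (E0 + algebraMap k K t • E1) ≠ U}.Finite := by
  have h2 : ∀ v, E0 v ∈ U := fun v => h0 ⟨v, rfl⟩
  have h3 : ∀ v, E1 v ∈ U := fun v => h1 ▸ ⟨v, rfl⟩
  have h4 : LinearMap.range (E1.codRestrict U h3) = ⊤ := by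
    rw [LinearMap.range_eq_top]
    rintro ⟨w, hw⟩
    rw [← h1] at hw
    obtain ⟨v, hv⟩ := hw
    exact ⟨v, Subtype.ext hv⟩
  refine (pencil (k := k) (E0.codRestrict U h2) (E1.codRestrict U h3) h4).subset fun t ht => ?_
  intro h5
  refine ht ?_
  apply le_antisymm
  · rintro _ ⟨v, rfl⟩
    exact U.add_mem (h2 v) (U.smul_mem _ (h3 v))
  · intro w hw
    have h6 : (⟨w, hw⟩ : U) ∈ LinearMap.range
        (E0.codRestrict U h2 + algebraMap k K t • E1.codRestrict U h3) := by
      rw [h5]; trivial
    obtain ⟨v, hv⟩ := h6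
    exact ⟨v, congrArg Subtype.val hv⟩

theorem pf_PEN : T_PEN := by
  classical
  intro k K _ _ _ _ a G G' l l0 ha hG hG' h
  set S1 := Sd K 2 (a - 1)
  set S2 := Sd K 2 (2 * a - 2)
  set U := Sd K 2 (2 * a - 1)
  have hfinU : FiniteDimensional K U := finite_homog K 2 _
  set f1 : S1 →ₗ[K] MvPolynomial (Fin 3) K := (LinearMap.mulLeft K G).comp S1.subtype with hf1
  set f2 : S1 →ₗ[K] MvPolynomial (Fin 3) K := (LinearMap.mulLeft K G').comp S1.subtype with hf2
  set f3 : S2 →ₗ[K] MvPolynomial (Fin 3) K :=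
    (LinearMap.mulLeft K (lin (ul K l))).comp S2.subtype with hf3
  set f0 : S2 →ₗ[K] MvPolynomial (Fin 3) K :=
    (LinearMap.mulLeft K (lin (ul K l0))).comp S2.subtype with hf0
  have hr : ∀ (m : ℕ) (p : MvPolynomial (Fin 3) K),
      LinearMap.range ((LinearMap.mulLeft K p).comp (Sd K 2 m).subtype) =
        mulW (n := 2) p (Sd K 2 m) := by
    intro m p
    unfold mulW
    rw [LinearMap.range_comp, Submodule.range_subtype]
  set E1 : (S1 × S1 × S2) →ₗ[K] MvPolynomial (Fin 3) K := f1.coprod (f2.coprod f3) with hE1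
  set E0 : (S1 × S1 × S2) →ₗ[K] MvPolynomial (Fin 3) K :=
    LinearMap.coprod 0 (LinearMap.coprod 0 f0) with hE0
  have h1 : LinearMap.range E1 = U := by
    rw [hE1, LinearMap.range_coprod, LinearMap.range_coprod, hf1, hf2, hf3, hr, hr, hr,
      ← sup_assoc]
    exact h
  have h0 : LinearMap.range E0 ≤ U := by
    rw [hE0, LinearMap.range_coprod, LinearMap.range_coprod, LinearMap.range_zero, bot_sup_eq,
      bot_sup_eq, hf0]
    rintro _ ⟨⟨C, hC⟩, rfl⟩
    have h2 := (isHomogeneous_lin (ul K l0)).mul ((mem_homogeneousSubmodule _ _).1 hC)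
    rw [show 1 + (2 * a - 2) = 2 * a - 1 by omega] at h2
    exact (mem_homogeneousSubmodule _ _).2 h2
  refine ((pencil' (k := k) U E0 E1 h0 h1).union (Set.finite_singleton 0)).subset fun t ht => ?_
  by_cases ht0 : t = 0
  · right; exact ht0
  left
  intro h2
  refine ht ?_
  rw [← h2]
  have ht' : algebraMap k K t ≠ 0 := by
    intro h3
    exact ht0 ((algebraMap k K).injective (by rw [h3, map_zero]))
  have h3 : E0 + algebraMap k K t • E1 = (algebraMap k K t • f1).coprod
      ((algebraMap k K t • f2).coprod (f0 + algebraMap k K t • f3)) := by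
    rw [hE0, hE1]
    ext x <;> simp
  have h4 : f0 + algebraMap k K t • f3 =
      (LinearMap.mulLeft K (lin (ul K (l0 + t • l)))).comp S2.subtype := by
    have h5 : lin (ul K (l0 + t • l)) =
        lin (ul K l0) + C (algebraMap k K t) * lin (ul K l) := by
      rw [← lin_smul, ← lin_add]
      congr 1
      funext j
      simp [ul]
    rw [h5, hf0, hf3]
    apply LinearMap.ext
    intro x
    simp only [LinearMap.add_apply, LinearMap.smul_apply, LinearMap.comp_apply,
      LinearMap.mulLeft_apply, Submodule.coe_subtype, smul_eq_C_mul]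
    ring
  rw [h3, h4, LinearMap.range_coprod, LinearMap.range_coprod, LinearMap.range_smul _ _ ht',
    LinearMap.range_smul _ _ ht', hf1, hf2, hr, hr, hr, ← sup_assoc]

end Pool.Agent.H79.EE
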