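import Pool.Agent.H79.EE.TRR

/-!
Module TRQ of the project EE (Theorem E) on `MP_70ba79_ag`: transfer of rational normal curves.
-/

set_option autoImplicit false

open Filter

namespace Pool.Agent.H79.EE

open MvPolynomial SC Pool.Agent.H27.LV Pool.Agent.H17.VG Pool.Agent.H17.BO Pool.Agent.H30.EE

/-- Independent rows have a maximal minor which is not zero. -/
theorem exists_minor {K : Type} [Field K] {m : ℕ} {ι : Type} [Fintype ι] (u : Fin m → ι → K)
    (hu : LinearIndependent K u) :
    ∃ J : Fin m → ι, (Matrix.of fun a b : Fin m => u a (J b)).det ≠ 0 := by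
  classical
  set A : Matrix (Fin m) ι K := Matrix.of u with hA
  have hr : A.rank = m := by
    have h1 : LinearIndependent K A.row := hu
    rw [h1.rank_matrix, Fintype.card_fin]
  have h2 : Module.finrank K (Submodule.span K (Set.range A.col)) = m := by
    rw [← Matrix.rank_eq_finrank_span_cols, hr]
  have h3 := Submodule.exists_fun_fin_finrank_span_eq K (Set.range A.col)
  rw [h2] at h3
  obtain ⟨f, hf, -, hfi⟩ := h3
  choose J hJ using hf
  refine ⟨J, ?_⟩
  have h4 : LinearIndependent K (Matrix.of fun a b : Fin m => u a (J b)).col := by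
    have h5 : (Matrix.of fun a b : Fin m => u a (J b)).col = f := by
      funext b
      rw [← hJ b]
      rfl
    rw [h5]
    exact hfi
  rw [Matrix.linearIndependent_cols_iff_isUnit, Matrix.isUnit_iff_isUnit_det] at h4
  exact h4.ne_zero

theorem indep_of_minor {K : Type} [Field K] {m : ℕ} {ι : Type} (u : Fin m → ι → K)
    (J : Fin m → ι) (hJ : (Matrix.of fun a b : Fin m => u a (J b)).det ≠ 0) :
    LinearIndependent K u := by
  classical
  have h1 : LinearIndependent K (Matrix.of fun a b : Fin m => u a (J b)).row := by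
    rw [Matrix.linearIndependent_rows_iff_isUnit, Matrix.isUnit_iff_isUnit_det]
    exact isUnit_iff_ne_zero.2 hJ
  exact LinearIndependent.of_comp (LinearMap.funLeft K K J) h1

section

variable {K : ℕ → Type} [∀ i, Field (K i)] {L : Type} [Field L] (π : (∀ i, K i) →+* L)

/-- a polynomial which vanishes in the ultraproduct vanishes at almost all indices
(copied from H60.BO.TF3) -/
theorem poly_zero
    (hker : ∀ f, π f = 0 ↔ ∀ᶠ i in (hyperfilter ℕ : Filter ℕ), f i = 0)
    (p : Polynomial (∀ i, K i)) (hp : p.map π = 0) :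
    ∀ᶠ i in (hyperfilter ℕ : Filter ℕ), p.map (Pi.evalRingHom K i) = 0 := by
  have h1 : ∀ n ∈ p.support, ∀ᶠ i in (hyperfilter ℕ : Filter ℕ), p.coeff n i = 0 := by
    intro n _
    rw [← hker, ← Polynomial.coeff_map, hp, Polynomial.coeff_zero]
  have h2 := (Filter.eventually_all_finset p.support).2 h1
  filter_upwards [h2] with i hi
  ext n
  rw [Polynomial.coeff_map, Polynomial.coeff_zero, Pi.evalRingHom_apply]
  by_cases hn : n ∈ p.support
  · exact hi n hn
  · rw [Polynomial.notMem_support_iff.1 hn]
    rfl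

/-- a determinant which is not zero in the ultraproduct is not zero at almost all indices -/
theorem det_ne (hker : ∀ f, π f = 0 ↔ ∀ᶠ i in (hyperfilter ℕ : Filter ℕ), f i = 0) {m : ℕ}
    (A : Fin m → Fin m → ∀ i, K i)
    (hA : (Matrix.of fun a b : Fin m => π (A a b)).det ≠ 0) :
    ∀ᶠ i in (hyperfilter ℕ : Filter ℕ), (Matrix.of fun a b : Fin m => A a b i).det ≠ 0 := by
  have h1 : π ((Matrix.of A).det) ≠ 0 := by
    rw [RingHom.map_det π (Matrix.of A)]
    exact hA
  have h4 : ¬ ∀ᶠ i in (hyperfilter ℕ : Filter ℕ), (Matrix.of A).det i = 0 :=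
    fun h => h1 ((hker _).2 h)
  have h5 : ∀ᶠ i in (hyperfilter ℕ : Filter ℕ), ¬ (Matrix.of A).det i = 0 :=
    Ultrafilter.eventually_not.2 h4
  filter_upwards [h5] with i hi h7
  exact hi ((RingHom.map_det (Pi.evalRingHom K i) (Matrix.of A)).trans h7)

end

theorem map_aev {n : ℕ} {S T : Type} [CommRing S] [CommRing T] (f : S →+* T)
    (g : Fin (n + 1) → Polynomial S) (F : MvPolynomial (Fin (n + 1)) S) :
    (aeval g F).map f = aeval (fun i => (g i).map f) (MvPolynomial.map f F) := by
  have h : (Polynomial.mapRingHom f).comp (aeval g).toRingHom =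
      ((aeval (fun i => (g i).map f)).toRingHom).comp (MvPolynomial.map f) := by
    apply MvPolynomial.ringHom_ext
    · intro r
      simp
    · intro i
      simp
  exact RingHom.congr_fun h F

theorem frm_scale {K : Type} [Field K] {n e : ℕ} (c : K) (t : Mon (n + 1) e → K) :
    frm (fun a => c * t a) = C c * frm t := by
  unfold frm
  rw [Finset.mul_sum]
  refine Finset.sum_congr rfl fun f _ => ?_
  rw [map_mul, mul_assoc]

theorem pf_TRQ (hHG : T_HG) : T_TRQ := by
  classical
  intro k K _ _ _ _ _ _ htr B L _ k' _ _ π hsurj hker hran m y M q z _ hq hz hz0 hres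
  -- normalisation of the forms
  have hp : ∀ l, ∃ p, q l p ≠ 0 := fun l => by
    have h1 := hq.ne_zero l
    by_contra h2
    push Not at h2
    exact h1 (funext h2)
  choose p hp using hp
  set q1 : Fin M → Mon (m + 1) 2 → k' := fun l a => (q l (p l))⁻¹ * q l a with hq1
  have hq1i : LinearIndependent k' q1 := by
    have h1 := hq.units_smul fun l => (Units.mk0 (q l (p l)) (hp l))⁻¹
    have h2 : (fun l => (Units.mk0 (q l (p l)) (hp l))⁻¹) • q = q1 := by
      funext l a
      simp [hq1, Units.smul_def]
    rwa [h2] at h1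
  have hq1p : ∀ l, q1 l (p l) = 1 := fun l => inv_mul_cancel₀ (hp l)
  -- lifts
  have hrep : ∀ (l : Fin M) (a : Mon (m + 1) 2), ∃ f : ∀ i, K i,
      π f = algebraMap k' L (q1 l a) ∧ (a = p l → f = 1) := by
    intro l a
    by_cases ha : a = p l
    · subst ha
      exact ⟨1, by rw [map_one, hq1p, map_one], fun _ => rfl⟩
    · obtain ⟨f, hf⟩ := hsurj (algebraMap k' L (q1 l a))
      exact ⟨f, hf, fun h => absurd h ha⟩
  choose Q hQ hQ1 using hrep
  have hrz : ∀ r j : Fin (m + 1), ∃ f : ∀ i, K i, π f = z r j ∧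
      (r = 0 → f = fun i => y i j) := by
    intro r j
    by_cases hr : r = 0
    · subst hr
      exact ⟨fun i => y i j, by rw [hz0], fun _ => rfl⟩
    · obtain ⟨f, hf⟩ := hsurj (z r j)
      exact ⟨f, hf, fun h => absurd h hr⟩
  choose Z hZ hZ0 using hrz
  have hN : ∀ x : Fin M × Mon (m + 1) 2, ∃ N : ℕ, ∀ᶠ i in (hyperfilter ℕ : Filter ℕ),
      h1 (k i) (Q x.1 x.2 i) ≤ N * B i := fun x => (hran _).1 ⟨_, (hQ x.1 x.2).symm⟩
  choose N hN using hN
  -- independence of the forms
  obtain ⟨J, hJ⟩ := exists_minor q1 hq1i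
  have e1 := det_ne π hker (fun a b => Q a (J b)) (by
    have h1 : (Matrix.of fun a b : Fin M => π (Q a (J b))) =
        (algebraMap k' L).mapMatrix (Matrix.of fun a b : Fin M => q1 a (J b)) := by
      ext a b
      exact hQ a (J b)
    rw [h1, ← RingHom.map_det]
    intro h2
    exact hJ ((algebraMap k' L).injective (by rw [h2, map_zero])))
  -- independence of the points
  obtain ⟨J', hJ'⟩ := exists_minor z hz
  have e2 := det_ne π hker (fun a b => Z a (J' b)) (by simpa only [hZ] using hJ')
  -- vanishing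
  have e3 : ∀ l, ∀ᶠ i in (hyperfilter ℕ : Filter ℕ),
      resC (fun r j => Z r j i) (frm fun a => Q l a i) = 0 := by
    intro l
    set F0 : MvPolynomial (Fin (m + 1)) (∀ i, K i) := ∑ f : Mon (m + 1) 2,
      C (Q l f) * monomial (fs f.1) 1 with hF0
    set P0 : Polynomial (∀ i, K i) := aeval (fun j => ∑ r : Fin (m + 1),
      Polynomial.C (Z r j) * Polynomial.X ^ (r : ℕ)) F0 with hP0
    have h1 : P0.map π = 0 := by
      have h2 : MvPolynomial.map π F0 = frm fun a => algebraMap k' L (q1 l a) := by
        rw [hF0, frm, map_sum]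
        refine Finset.sum_congr rfl fun f _ => ?_
        simp only [map_mul, MvPolynomial.map_C, mono, MvPolynomial.map_monomial, RingHom.map_one,
          hQ]
      have h3 : (frm fun a => algebraMap k' L (q1 l a)) =
          C (algebraMap k' L (q l (p l))⁻¹) * frm fun a => algebraMap k' L (q l a) := by
        rw [← frm_scale]
        congr 1
        funext a
        rw [hq1, map_mul]
      rw [hP0, map_aev, h2, h3]
      simp only [Polynomial.map_sum, Polynomial.map_mul, Polynomial.map_C, Polynomial.map_pow,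
        Polynomial.map_X, hZ]
      rw [map_mul]
      have h4 := hres l
      unfold resC at h4
      rw [h4, mul_zero]
    filter_upwards [poly_zero π hker P0 h1] with i hi
    rw [hP0, map_aev] at hi
    have h2 : MvPolynomial.map (Pi.evalRingHom K i) F0 = frm fun a => Q l a i := by
      rw [hF0, frm, map_sum]
      refine Finset.sum_congr rfl fun f _ => ?_
      simp only [map_mul, MvPolynomial.map_C, mono, MvPolynomial.map_monomial, RingHom.map_one,
        Pi.evalRingHom_apply]
    rw [h2] at hi
    simp only [Polynomial.map_sum, Polynomial.map_mul, Polynomial.map_C, Polynomial.map_pow,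
      Polynomial.map_X, Pi.evalRingHom_apply] at hi
    exact hi
  refine ⟨∑ x, N x, ?_⟩
  filter_upwards [e1, e2, eventually_all.2 e3, eventually_all.2 hN] with i f1 f2 f3 f4
  refine ⟨fun l a => Q l a i, fun r j => Z r j i, indep_of_minor _ J f1,
    indep_of_minor _ J' f2, ?_, f3, fun l => ?_⟩
  · funext j
    exact congrFun (hZ0 0 j rfl) i
  · have h5 : Q l (p l) i = 1 := by rw [hQ1 l (p l) rfl]; rfl
    refine (hgt_le_sum hHG (k i) (K i) (htr i) (fun a => Q l a i) (p l) h5).trans ?_
    have h6 : ∑ a, h1 (k i) (Q l a i) ≤ ∑ a, N (l, a) * B i :=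
      Finset.sum_le_sum fun a _ => f4 (l, a)
    have h7 : ∑ a, N (l, a) ≤ ∑ x, N x := by
      rw [Fintype.sum_prod_type]
      exact Finset.single_le_sum (f := fun l => ∑ a, N (l, a)) (fun _ _ => Nat.zero_le _)
        (Finset.mem_univ l)
    rw [← Finset.sum_mul] at h6
    exact_mod_cast h6.trans (Nat.mul_le_mul_right _ h7)

end Pool.Agent.H79.EE
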