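import Pool.Agent.H30.EE.TargetsU
import Pool.Agent.H95.BO.HTA
import Pool.Agent.H27.LV.Curve

/-!
Modules TRR and TRQ of the project EE (Theorem E) on `MP_70ba79_ag`: transfer from an ultraproduct.
-/

set_option autoImplicit false

open Filter

namespace Pool.Agent.H79.EE

open MvPolynomial SC Pool.Agent.H27.LV Pool.Agent.H17.VG Pool.Agent.H17.BO Pool.Agent.H30.EE

/-- The height of a point with a coordinate `1` is at most the sum of the heights. -/
theorem hgt_le_sum (hHG : T_HG) (k K : Type) [Field k] [IsAlgClosed k] [CharZero k] [Field K]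
    [Algebra k K] [Algebra.EssFiniteType k K] (htr : Algebra.trdeg k K = 1) {κ : Type}
    [Fintype κ] (a : κ → K) (i : κ) (hi : a i = 1) : hgt k a ≤ ((∑ j, h1 k (a j) : ℕ) : ℤ) := by
  obtain ⟨-, -, -, -, -, h6, -⟩ := hHG k K htr κ a
  rw [h6 i hi]
  have h7 := ((Pool.Agent.H95.BO.pf_HTA pfm) k K htr 0 0).2.2.2.2 κ a
  exact_mod_cast h7.2

theorem pf_TRR (hHG : T_HG) : T_TRR := by
  classical
  intro k K _ _ _ _ _ _ htr B L _ k' _ _ π hsurj hker hran m y hdep
  rw [Fintype.not_linearIndependent_iff] at hdep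
  obtain ⟨g, hg, i0, hi0⟩ := hdep
  have hrep : ∀ j : Fin (m + 1), ∃ f : ∀ i, K i, π f = algebraMap k' L (g j / g i0) ∧
      (j = i0 → f = 1) := by
    intro j
    by_cases hj : j = i0
    · subst hj
      exact ⟨1, by rw [map_one, div_self hi0, map_one], fun _ => rfl⟩
    · obtain ⟨f, hf⟩ := hsurj (algebraMap k' L (g j / g i0))
      exact ⟨f, hf, fun h => absurd h hj⟩
  choose f hf hf1 using hrep
  have hN : ∀ j, ∃ N : ℕ, ∀ᶠ i in (hyperfilter ℕ : Filter ℕ), h1 (k i) (f j i) ≤ N * B i :=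
    fun j => (hran (f j)).1 ⟨_, (hf j).symm⟩
  choose N hN using hN
  have hrel : π (∑ j, f j * fun i => y i j) = 0 := by
    rw [map_sum]
    have h2 : ∀ j, π (f j * fun i => y i j) =
        algebraMap k' L (g i0)⁻¹ * (g j • π fun i => y i j) := by
      intro j
      rw [map_mul, hf, Algebra.smul_def, div_eq_mul_inv, map_mul]
      ring
    rw [Finset.sum_congr rfl fun j _ => h2 j, ← Finset.mul_sum, hg, mul_zero]
  refine ⟨∑ j, N j, ?_⟩
  filter_upwards [(hker _).1 hrel, eventually_all.2 hN] with i e1 e2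
  have h3 : f i0 i = 1 := by rw [hf1 i0 rfl]; rfl
  refine ⟨fun j => f j i, ?_, ?_, ?_⟩
  · intro h4
    have h5 := congrFun h4 i0
    simp only [h3, Pi.zero_apply] at h5
    exact one_ne_zero h5
  · rw [Finset.sum_apply] at e1
    exact e1
  · refine (hgt_le_sum hHG (k i) (K i) (htr i) (fun j => f j i) i0 h3).trans ?_
    have h6 : ∑ j, h1 (k i) (f j i) ≤ ∑ j, N j * B i := Finset.sum_le_sum fun j _ => e2 j
    rw [← Finset.sum_mul] at h6
    exact_mod_cast h6

end Pool.Agent.H79.EE
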